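import Pool.Agent.Lib.H26P.A

/-!
# H32K2, file A: poset lemmas (fibres above, adding an element with acyclic lower part)
-/

set_option autoImplicit false
set_option linter.unusedSectionVars false

namespace H32K2

open Finset H98P H63F H30F

variable {α : Type*} [PartialOrder α] [Fintype α] [DecidableEq α]

/-- FIBRES ABOVE: `P ⊆ Q`, all the parts of `P` above an element of `Q` are acyclic, `P` is
acyclic, then `Q` is acyclic. -/
theorem ac_fib_up {P Q : α → Prop} (hPQ : ∀ x, P x → Q x)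
    (hf : ∀ y, Q y → AC (Ch fun x => P x ∧ y ≤ x)) (hP : AC (Ch P)) : AC (Ch Q) := by
  have hac : ∀ s, Ch Q s → s.Nonempty → AC (fun r => ∃ m ∈ s, Ch (fun x => P x ∧ m ≤ x) r) := by
    intro s hs hn
    obtain ⟨m, hm, h⟩ := ch_min hs hn
    refine ac_congr (K := Ch fun x => P x ∧ m ≤ x) (fun r => ?_) (hf m (hs.1 m hm))
    exact ⟨fun h1 => ⟨m, hm, h1⟩,
      fun ⟨m', hm', h1⟩ => ch_mono (fun x hx => ⟨hx.1, (h m' hm').trans hx.2⟩) h1⟩
  refine ac_transfer (Ch Q) (Ch P) ch_dn ch_dn (ch_empty Q) (ch_empty P)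
    (fun s r => ∃ m ∈ s, Ch (fun x => P x ∧ m ≤ x) r) (fun t r => r ⊆ t)
    (fun s r => ∃ m ∈ s, Ch (fun x => Q x ∧ m ≤ x) r)
    ?_ ?_ ?_ ?_ ?_ ?_ ?_ ?_ ?_ ?_ ?_ ?_ ?_ hP
  · rintro s t hst _ _ r ⟨m, hm, h⟩
    exact ⟨m, hst hm, h⟩
  · rintro s _ ⟨m, hm⟩
    exact ⟨m, hm, ch_empty _⟩
  · exact hac
  · rintro s _ _ r ⟨m, _, h⟩
    exact ch_mono (fun x hx => hx.1) h
  · exact fun s t hst _ _ r hr => hr.trans hst
  · exact fun s _ _ => empty_subset _
  · exact fun s _ hn => ac_simplex hn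
  · exact fun s hs _ r hr => ch_mono hPQ (ch_dn _ _ hr hs)
  · rintro s t hst _ _ r ⟨m, hm, h⟩
    exact ⟨m, hst hm, h⟩
  · intro s hs hn
    obtain ⟨m, hm, h⟩ := ch_min hs hn
    exact ⟨m, hm, fun x hx => ⟨hs.1 x hx, h x hx⟩, hs.2⟩
  · intro s hs hn
    obtain ⟨m, hm, h⟩ := ch_min hs hn
    refine ac_congr (K := Ch fun x => Q x ∧ m ≤ x) (fun r => ?_)
      (ac_ch_cone (a := m) ⟨hs.1 m hm, le_refl _⟩ fun x hx => Or.inl hx.2)
    exact ⟨fun h1 => ⟨m, hm, h1⟩,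
      fun ⟨m', hm', h1⟩ => ch_mono (fun x hx => ⟨hx.1, (h m' hm').trans hx.2⟩) h1⟩
  · rintro s _ _ r ⟨m, _, h⟩
    exact ch_mono (fun x hx => hx.1) h
  · rintro s t r _ _ ⟨m, hm, h⟩ _ h3
    exact ⟨m, hm, ch_dn _ _ h3 (ch_mono (fun x hx => ⟨hPQ x hx.1, hx.2⟩) h)⟩

/-- The same as an equivalence: `P` acyclic if `Q` is. -/
theorem ac_fib_up' {P Q : α → Prop} (hPQ : ∀ x, P x → Q x)
    (hf : ∀ y, Q y → AC (Ch fun x => P x ∧ y ≤ x)) (hQ : AC (Ch Q)) : AC (Ch P) := by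
  have hac : ∀ s, Ch Q s → s.Nonempty → AC (fun r => ∃ m ∈ s, Ch (fun x => P x ∧ m ≤ x) r) := by
    intro s hs hn
    obtain ⟨m, hm, h⟩ := ch_min hs hn
    refine ac_congr (K := Ch fun x => P x ∧ m ≤ x) (fun r => ?_) (hf m (hs.1 m hm))
    exact ⟨fun h1 => ⟨m, hm, h1⟩,
      fun ⟨m', hm', h1⟩ => ch_mono (fun x hx => ⟨hx.1, (h m' hm').trans hx.2⟩) h1⟩
  refine ac_transfer (Ch P) (Ch Q) ch_dn ch_dn (ch_empty P) (ch_empty Q)
    (fun s T => T ⊆ s) (fun t r => ∃ m ∈ t, Ch (fun x => P x ∧ m ≤ x) r)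
    (fun s r => ∃ m ∈ s, Ch (fun x => P x ∧ m ≤ x) r)
    ?_ ?_ ?_ ?_ ?_ ?_ ?_ ?_ ?_ ?_ ?_ ?_ ?_ hQ
  · exact fun s t hst _ _ r hr => hr.trans hst
  · exact fun s _ _ => empty_subset _
  · exact fun s _ hn => ac_simplex hn
  · exact fun s hs _ r hr => ch_mono hPQ (ch_dn _ _ hr hs)
  · rintro s t hst _ _ r ⟨m, hm, h⟩
    exact ⟨m, hst hm, h⟩
  · rintro s _ ⟨m, hm⟩
    exact ⟨m, hm, ch_empty _⟩
  · exact hac
  · rintro s _ _ r ⟨m, _, h⟩
    exact ch_mono (fun x hx => hx.1) h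
  · rintro s t hst _ _ r ⟨m, hm, h⟩
    exact ⟨m, hst hm, h⟩
  · intro s hs hn
    obtain ⟨m, hm, h⟩ := ch_min hs hn
    exact ⟨m, hm, fun x hx => ⟨hs.1 x hx, h x hx⟩, hs.2⟩
  · exact fun s hs hn => hac s (ch_mono hPQ hs) hn
  · rintro s _ _ r ⟨m, _, h⟩
    exact ch_mono (fun x hx => hx.1) h
  · rintro s t r _ _ h1 _ ⟨m, hm, h⟩
    exact ⟨m, h1 hm, h⟩

/-- Adding an element with acyclic lower part; the upper part is arbitrary. -/
theorem ac_insert {R : α → Prop} {a : α} (hR : AC (Ch R))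
    (hl : AC (Ch fun x => R x ∧ x < a)) : AC (Ch fun x => R x ∨ x = a) := by
  by_cases ha : R a
  · have h1 : (fun x => R x ∨ x = a) = R := by
      funext x
      exact propext ⟨fun h => h.elim id fun h => h ▸ ha, Or.inl⟩
    rw [h1]
    exact hR
  · refine H26P.ac_add_one (P := fun x => R x ∨ x = a) (x := a) (Or.inr rfl) ?_ ?_
    · have h1 : (fun y => (R y ∨ y = a) ∧ y ≠ a) = R := by
        funext y
        exact propext ⟨fun h => h.1.resolve_right h.2, fun h => ⟨Or.inl h, fun e => ha (e ▸ h)⟩⟩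
      rw [h1]
      exact hR
    · have h1 : (fun y => (R y ∨ y = a) ∧ y < a) = fun y => R y ∧ y < a := by
        funext y
        exact propext ⟨fun h => ⟨h.1.resolve_right h.2.ne, h.2⟩, fun h => ⟨Or.inl h.1, h.2⟩⟩
      rw [h1]
      exact hl

/-- Removing an element with acyclic lower part; the upper part is arbitrary. -/
theorem ac_erase {P : α → Prop} {a : α} (hP : AC (Ch P))
    (hl : AC (Ch fun x => P x ∧ x < a)) : AC (Ch fun x => P x ∧ x ≠ a) := by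
  by_cases ha : P a
  · exact H26P.ac_rem_one ha hP hl
  · have h1 : (fun x => P x ∧ x ≠ a) = P := by
      funext x
      exact propext ⟨fun h => h.1, fun h => ⟨h, fun e => ha (e ▸ h)⟩⟩
    rw [h1]
    exact hP

/-- ZIGZAG CONE: `f` is monotone on `P`, `x ≤ f x` and `a ≤ f x`. -/
theorem ac_zigzag {P : α → Prop} (f : α → α) {a : α} (ha : P a) (hf : ∀ x, P x → P (f x))
    (hm : ∀ x y, P x → P y → x ≤ y → f x ≤ f y) (hle : ∀ x, P x → x ≤ f x)
    (hfa : ∀ x, P x → a ≤ f x) : AC (Ch P) := by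
  refine ac_transfer (A := α) (B := Unit) (Ch P) (fun _ => True) ch_dn (fun _ _ _ _ => trivial)
    (ch_empty P) trivial (fun _ _ => True) (fun _ r => r ⊆ {a})
    (fun s r => Ch (fun x => x = a ∨ x ∈ s ∨ ∃ y ∈ s, x = f y) r)
    ?_ ?_ ?_ ?_ ?_ ?_ ?_ ?_ ?_ ?_ ?_ ?_ ?_ ?_
  · exact fun _ _ _ _ _ _ _ => trivial
  · exact fun _ _ _ => trivial
  · intro _ _ _
    refine ac_congr (fun s => ?_) (ac_simplex (A := (univ : Finset Unit)) univ_nonempty)
    exact ⟨fun _ => trivial, fun _ => subset_univ s⟩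
  · exact fun _ _ _ _ _ => trivial
  · exact fun _ _ _ _ _ _ hr => hr
  · exact fun _ _ _ => empty_subset _
  · exact fun _ _ _ => ac_simplex (singleton_nonempty a)
  · intro _ _ _ r hr
    refine ⟨fun x hx => ?_, fun x hx y hy => ?_⟩
    · rw [mem_singleton.1 (hr hx)]
      exact ha
    · rw [mem_singleton.1 (hr hx), mem_singleton.1 (hr hy)]
      exact Or.inl le_rfl
  · rintro s t hst _ _ r hr
    refine ch_mono (fun x hx => ?_) hr
    rcases hx with h | h | ⟨y, h, h2⟩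
    · exact Or.inl h
    · exact Or.inr (Or.inl (hst h))
    · exact Or.inr (Or.inr ⟨y, hst h, h2⟩)
  · exact fun s hs _ => ⟨fun x hx => Or.inr (Or.inl hx), hs.2⟩
  · intro s hs hn
    obtain ⟨m, hm', h⟩ := ch_max hs hn
    refine ac_ch_cone (a := f m) (Or.inr (Or.inr ⟨m, hm', rfl⟩)) fun x hx => Or.inr ?_
    rcases hx with h1 | h1 | ⟨y, h1, h2⟩
    · rw [h1]
      exact hfa m (hs.1 m hm')
    · exact (h x h1).trans (hle m (hs.1 m hm'))
    · rw [h2]
      exact hm y m (hs.1 y h1) (hs.1 m hm') (h y h1)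
  · intro s hs _ r hr
    refine ch_mono (fun x hx => ?_) hr
    rcases hx with h1 | h1 | ⟨y, h1, h2⟩
    · rw [h1]
      exact ha
    · exact hs.1 x h1
    · rw [h2]
      exact hf y (hs.1 y h1)
  · intro s t r _ _ _ _ hr
    refine ⟨fun x hx => Or.inl (mem_singleton.1 (hr hx)), fun x hx y hy => ?_⟩
    rw [mem_singleton.1 (hr hx), mem_singleton.1 (hr hy)]
    exact Or.inl le_rfl
  · refine ac_congr (fun s => ?_) (ac_simplex (A := (univ : Finset Unit)) univ_nonempty)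
    exact ⟨fun _ => trivial, fun _ => subset_univ s⟩

/-- ZIGZAG CONE, decreasing form: `f` is monotone on `P`, `f x ≤ x` and `f x ≤ a`. -/
theorem ac_zigzag_down {P : α → Prop} (f : α → α) {a : α} (ha : P a) (hf : ∀ x, P x → P (f x))
    (hm : ∀ x y, P x → P y → x ≤ y → f x ≤ f y) (hle : ∀ x, P x → f x ≤ x)
    (hfa : ∀ x, P x → f x ≤ a) : AC (Ch P) := by
  refine ac_transfer (A := α) (B := Unit) (Ch P) (fun _ => True) ch_dn (fun _ _ _ _ => trivial)
    (ch_empty P) trivial (fun _ _ => True) (fun _ r => r ⊆ {a})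
    (fun s r => Ch (fun x => x = a ∨ x ∈ s ∨ ∃ y ∈ s, x = f y) r)
    ?_ ?_ ?_ ?_ ?_ ?_ ?_ ?_ ?_ ?_ ?_ ?_ ?_ ?_
  · exact fun _ _ _ _ _ _ _ => trivial
  · exact fun _ _ _ => trivial
  · intro _ _ _
    refine ac_congr (fun s => ?_) (ac_simplex (A := (univ : Finset Unit)) univ_nonempty)
    exact ⟨fun _ => trivial, fun _ => subset_univ s⟩
  · exact fun _ _ _ _ _ => trivial
  · exact fun _ _ _ _ _ _ hr => hr
  · exact fun _ _ _ => empty_subset _
  · exact fun _ _ _ => ac_simplex (singleton_nonempty a)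
  · intro _ _ _ r hr
    refine ⟨fun x hx => ?_, fun x hx y hy => ?_⟩
    · rw [mem_singleton.1 (hr hx)]
      exact ha
    · rw [mem_singleton.1 (hr hx), mem_singleton.1 (hr hy)]
      exact Or.inl le_rfl
  · rintro s t hst _ _ r hr
    refine ch_mono (fun x hx => ?_) hr
    rcases hx with h | h | ⟨y, h, h2⟩
    · exact Or.inl h
    · exact Or.inr (Or.inl (hst h))
    · exact Or.inr (Or.inr ⟨y, hst h, h2⟩)
  · exact fun s hs _ => ⟨fun x hx => Or.inr (Or.inl hx), hs.2⟩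
  · intro s hs hn
    obtain ⟨m, hm', h⟩ := ch_min hs hn
    refine ac_ch_cone (a := f m) (Or.inr (Or.inr ⟨m, hm', rfl⟩)) fun x hx => Or.inl ?_
    rcases hx with h1 | h1 | ⟨y, h1, h2⟩
    · rw [h1]
      exact hfa m (hs.1 m hm')
    · exact (hle m (hs.1 m hm')).trans (h x h1)
    · rw [h2]
      exact hm m y (hs.1 m hm') (hs.1 y h1) (h y h1)
  · intro s hs _ r hr
    refine ch_mono (fun x hx => ?_) hr
    rcases hx with h1 | h1 | ⟨y, h1, h2⟩
    · rw [h1]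
      exact ha
    · exact hs.1 x h1
    · rw [h2]
      exact hf y (hs.1 y h1)
  · intro s t r _ _ _ _ hr
    refine ⟨fun x hx => Or.inl (mem_singleton.1 (hr hx)), fun x hx y hy => ?_⟩
    rw [mem_singleton.1 (hr hx), mem_singleton.1 (hr hy)]
    exact Or.inl le_rfl
  · refine ac_congr (fun s => ?_) (ac_simplex (A := (univ : Finset Unit)) univ_nonempty)
    exact ⟨fun _ => trivial, fun _ => subset_univ s⟩

end H32K2
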